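import Mathlib
import Pool.Agent.Q175.Gauge

/-!
# Plastic dense sigma-compact k-crowded subspaces

Every k-crowded separable metric space contains a dense subspace that is plastic, sigma-compact
and k-crowded.
-/

open Set Filter Topology MeasureTheory
open scoped ENNReal

namespace Pool.Agent.Results.MP_4aa5c9_gt.PlasticSubspace

/-- A space is `k`-crowded if each non-empty open subset contains an uncountable compact
subset. -/
def KCrowded (Z : Type*) [TopologicalSpace Z] : Prop :=
  ∀ U : Set Z, IsOpen U → U.Nonempty → ∃ C ⊆ U, IsCompact C ∧ ¬ C.Countable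

/-- A metric space is plastic if every non-expansive bijection of it is an isometry. -/
def Plastic (Z : Type*) [MetricSpace Z] : Prop :=
  ∀ f : Z → Z, Function.Bijective f → (∀ x y, dist (f x) (f y) ≤ dist x y) →
    ∀ x y, dist (f x) (f y) = dist x y

/-! ### The coin-tossing measure -/

/-- The coin-tossing measure on the Cantor space. -/
noncomputable def coin : Measure (ℕ → Bool) :=
  Measure.infinitePi fun _ : ℕ => (PMF.uniformOfFintype Bool).toMeasure

instance : IsProbabilityMeasure coin := by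
  unfold coin
  infer_instance

theorem coin_cyl (x : ℕ → Bool) (m : ℕ) :
    coin {y | ∀ i < m, y i = x i} = (2 : ℝ≥0∞)⁻¹ ^ m := by
  have h1 : {y : ℕ → Bool | ∀ i < m, y i = x i} = Set.pi (Finset.range m) fun i => {x i} := by
    ext y
    simp
  rw [h1, coin, Measure.infinitePi_pi _ fun _ _ => measurableSet_singleton _]
  have h2 : ∀ b : Bool, (PMF.uniformOfFintype Bool).toMeasure {b} = (2 : ℝ≥0∞)⁻¹ := by
    intro b
    rw [PMF.toMeasure_apply_singleton _ _ (measurableSet_singleton _),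
      PMF.uniformOfFintype_apply]
    simp
  simp [h2]

/-! ### Gauges -/

/-- The gauge with scales `δ`. -/
noncomputable def gauge (δ : ℕ → ℝ) (t : ℝ≥0∞) : ℝ≥0∞ :=
  ⨅ (k : ℕ) (_ : t < ENNReal.ofReal (δ k)), (2 : ℝ≥0∞)⁻¹ ^ k

theorem gauge_mono (δ : ℕ → ℝ) : Monotone (gauge δ) := by
  intro s t hst
  refine le_iInf₂ fun k hk => ?_
  exact iInf₂_le k (hst.trans_lt hk)

theorem gauge_le {δ : ℕ → ℝ} {t : ℝ≥0∞} {k : ℕ} (h : t < ENNReal.ofReal (δ k)) :
    gauge δ t ≤ (2 : ℝ≥0∞)⁻¹ ^ k := iInf₂_le k h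

section Measure

variable {Z : Type*} [MetricSpace Z] [MeasurableSpace Z] [BorelSpace Z]

/-- Non-expansive maps do not increase the measure. -/
theorem image_le {m : ℝ≥0∞ → ℝ≥0∞} (hm : Monotone m) {f : Z → Z}
    (hf : ∀ x y, dist (f x) (f y) ≤ dist x y) (A : Set Z) :
    Measure.mkMetric m (f '' A) ≤ Measure.mkMetric m A := by
  have hL : ∀ s : Set Z, Metric.ediam (f '' s) ≤ Metric.ediam s := by
    intro s
    refine Metric.ediam_image_le_iff.2 fun x hx y hy => ?_
    refine le_trans ?_ (Metric.edist_le_ediam_of_mem hx hy)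
    rw [edist_dist, edist_dist]
    exact ENNReal.ofReal_le_ofReal (hf x y)
  rw [Measure.mkMetric_apply, Measure.mkMetric_apply]
  refine iSup₂_mono fun r hr => ?_
  refine le_iInf₂ fun t ht => le_iInf fun htr => ?_
  refine iInf₂_le_of_le (fun n => f '' t n) ?_ (iInf_le_of_le (fun n => (hL _).trans (htr n)) ?_)
  · rw [← image_iUnion]
    exact image_mono ht
  · refine ENNReal.tsum_le_tsum fun n => ?_
    refine iSup_le fun hn => ?_
    have hn' : (t n).Nonempty := image_nonempty.1 hn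
    exact le_iSup_of_le hn' (hm (hL _))

/-- The scheme hypothesis for one Cantor set at the position `n`. -/
structure Scheme (δ : ℕ → ℝ) (n : ℕ) (φ : (ℕ → Bool) → Z) : Prop where
  close : ∀ k x y, (∀ i, i + n < k → x i = y i) → dist (φ x) (φ y) ≤ δ k / 2
  far : ∀ k x y, (∃ i, i + n < k ∧ x i ≠ y i) → δ k ≤ dist (φ x) (φ y)

variable {δ : ℕ → ℝ} {n : ℕ} {φ : (ℕ → Bool) → Z}

omit [MeasurableSpace Z] [BorelSpace Z] in
theorem Scheme.continuous (hφ : Scheme δ n φ) (hpos : ∀ k, 0 < δ k)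
    (hlim : Tendsto δ atTop (𝓝 0)) : Continuous φ := by
  rw [continuous_iff_continuousAt]
  intro x
  rw [Metric.continuousAt_iff']
  intro ε hε
  obtain ⟨k, hk⟩ := (hlim.eventually (gt_mem_nhds hε)).exists
  have h1 : {y : ℕ → Bool | ∀ i < k, y i = x i} ∈ 𝓝 x := by
    have : {y : ℕ → Bool | ∀ i < k, y i = x i} = Set.pi (Finset.range k) fun i => {x i} := by
      ext y
      simp
    rw [this]
    exact set_pi_mem_nhds (Finset.finite_toSet _) fun i _ => (isOpen_discrete _).mem_nhds rfl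
  filter_upwards [h1] with y hy
  have h2 := hφ.close k y x fun i hi => hy i (by omega)
  have h3 := hpos k
  linarith

/-- The upper bound. -/
theorem Scheme.le (hφ : Scheme δ n φ) (hpos : ∀ k, 0 < δ k) (hlim : Tendsto δ atTop (𝓝 0)) :
    Measure.mkMetric (gauge δ) (range φ) ≤ (2 : ℝ≥0∞)⁻¹ ^ n := by
  classical
  let t : (k : ℕ) → (Fin k → Bool) → Set Z := fun k s => φ '' {y | ∀ i : Fin k, y i = s i}
  have hdiam : ∀ k s, Metric.ediam (t k s) ≤ ENNReal.ofReal (δ (k + n) / 2) := by
    intro k s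
    refine Metric.ediam_image_le_iff.2 fun x hx y hy => ?_
    rw [edist_dist]
    refine ENNReal.ofReal_le_ofReal (hφ.close _ x y fun i hi => ?_)
    have hik : i < k := by omega
    exact (hx ⟨i, hik⟩).trans (hy ⟨i, hik⟩).symm
  have hr : Tendsto (fun k => ENNReal.ofReal (δ (k + n) / 2)) atTop (𝓝 0) := by
    have h1 : Tendsto (fun k => δ (k + n) / 2) atTop (𝓝 0) := by
      have := (hlim.comp (tendsto_add_atTop_nat n)).div_const 2
      simpa using this
    have := (ENNReal.tendsto_ofReal h1)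
    simpa using this
  refine (Measure.mkMetric_le_liminf_sum (range φ) (fun k => ENNReal.ofReal (δ (k + n) / 2)) hr t
    (Eventually.of_forall hdiam) (Eventually.of_forall fun k => ?_) (gauge δ)).trans ?_
  · rintro _ ⟨x, rfl⟩
    exact mem_iUnion.2 ⟨fun i => x i, x, fun i => rfl, rfl⟩
  · refine liminf_le_of_le (by isBoundedDefault) fun b hb => ?_
    obtain ⟨k, hk⟩ := hb.exists
    refine hk.trans ?_
    have h1 : ∀ s, gauge δ (Metric.ediam (t k s)) ≤ (2 : ℝ≥0∞)⁻¹ ^ (k + n) := by
      intro s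
      refine gauge_le ((hdiam k s).trans_lt ?_)
      exact (ENNReal.ofReal_lt_ofReal_iff (hpos _)).2 (half_lt_self (hpos _))
    calc ∑ s, gauge δ (Metric.ediam (t k s)) ≤ ∑ _s : Fin k → Bool, (2 : ℝ≥0∞)⁻¹ ^ (k + n) :=
          Finset.sum_le_sum fun s _ => h1 s
      _ = 2 ^ k * (2 : ℝ≥0∞)⁻¹ ^ (k + n) := by simp
      _ = (2 : ℝ≥0∞)⁻¹ ^ n := by
          rw [pow_add, ← mul_assoc, ← mul_pow, ENNReal.mul_inv_cancel two_ne_zero
            ENNReal.ofNat_ne_top, one_pow, one_mul]

/-- The lower bound. -/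
theorem Scheme.pos (hφ : Scheme δ n φ) (hpos : ∀ k, 0 < δ k) (hlim : Tendsto δ atTop (𝓝 0)) :
    0 < Measure.mkMetric (gauge δ) (range φ) := by
  classical
  have hc := hφ.continuous hpos hlim
  let ν : Measure Z := (2 : ℝ≥0∞)⁻¹ ^ n • coin.map φ
  have hν : ν ≤ Measure.mkMetric (gauge δ) := by
    refine Measure.le_mkMetric _ _ 1 one_pos fun s _ => ?_
    refine le_iInf₂ fun k hk => ?_
    -- the preimage of `s` is contained in a cylinder of length `k - n`
    have h1 : coin.map φ s ≤ (2 : ℝ≥0∞)⁻¹ ^ (k - n) := by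
      have h2 : coin.map φ s ≤ coin.map φ (closure s) := measure_mono subset_closure
      refine h2.trans ?_
      rw [Measure.map_apply hc.measurable isClosed_closure.measurableSet]
      rcases (φ ⁻¹' closure s).eq_empty_or_nonempty with he | ⟨x, hx⟩
      · rw [he, measure_empty]
        exact zero_le
      · rw [← coin_cyl x (k - n)]
        refine measure_mono fun y hy i hi => ?_
        by_contra hne
        have h3 := hφ.far k y x ⟨i, by omega, hne⟩
        have h4 : edist (φ y) (φ x) ≤ Metric.ediam s := by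
          rw [← Metric.ediam_closure]
          exact Metric.edist_le_ediam_of_mem hy hx
        have h5 := h4.trans_lt hk
        rw [edist_dist, ENNReal.ofReal_lt_ofReal_iff (hpos k)] at h5
        exact absurd h5 (not_lt.2 h3)
    calc ν s = (2 : ℝ≥0∞)⁻¹ ^ n * coin.map φ s := by simp [ν]
      _ ≤ (2 : ℝ≥0∞)⁻¹ ^ n * (2 : ℝ≥0∞)⁻¹ ^ (k - n) := by gcongr
      _ = (2 : ℝ≥0∞)⁻¹ ^ (n + (k - n)) := by rw [pow_add]
      _ ≤ (2 : ℝ≥0∞)⁻¹ ^ k := by
          exact pow_le_pow_right_of_le_one' (ENNReal.inv_le_one.2 one_le_two) (by omega)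
  refine lt_of_lt_of_le ?_ (hν _)
  have h1 : ν (range φ) = (2 : ℝ≥0∞)⁻¹ ^ n := by
    have h2 : MeasurableSet (range φ) := (isCompact_range hc).isClosed.measurableSet
    simp [ν, Measure.map_apply hc.measurable h2]
  rw [h1]
  exact ENNReal.pow_pos (ENNReal.inv_pos.2 ENNReal.ofNat_ne_top) n

/-- A space with a finite gauge measure of full support is plastic. -/
theorem plastic_of_measure [SecondCountableTopology Z] {m : ℝ≥0∞ → ℝ≥0∞} (hm : Monotone m)
    (hfin : Measure.mkMetric m (univ : Set Z) < ∞)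
    (hop : ∀ U : Set Z, IsOpen U → U.Nonempty → 0 < Measure.mkMetric m U) : Plastic Z := by
  classical
  intro f hfb hf
  let μ : Measure Z := Measure.mkMetric m
  have hμfin : IsFiniteMeasure μ := ⟨hfin⟩
  have hμop : μ.IsOpenPosMeasure := ⟨fun U hU hne => (hop U hU hne).ne'⟩
  have hfc : Continuous f := by
    have : LipschitzWith 1 f := LipschitzWith.of_dist_le_mul fun x y => by
      simpa using hf x y
    exact this.continuous
  have hle : ∀ B : Set Z, μ B ≤ μ (f ⁻¹' B) := by
    intro B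
    have := image_le hm hf (f ⁻¹' B)
    rwa [image_preimage_eq _ hfb.2] at this
  have hmp : MeasurePreserving f μ μ := by
    refine ⟨hfc.measurable, ?_⟩
    ext B hB
    rw [Measure.map_apply hfc.measurable hB]
    refine le_antisymm ?_ (hle B)
    have h1 : μ B + μ Bᶜ = μ univ := measure_add_measure_compl hB
    have h2 : μ (f ⁻¹' B) + μ (f ⁻¹' Bᶜ) = μ univ := by
      rw [preimage_compl]
      exact measure_add_measure_compl (hfc.measurable hB)
    have h3 := hle Bᶜ
    by_contra hlt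
    push Not at hlt
    have h4 : μ B + μ Bᶜ < μ (f ⁻¹' B) + μ (f ⁻¹' Bᶜ) :=
      ENNReal.add_lt_add_of_lt_of_le (measure_ne_top μ _) hlt h3
    rw [h1, h2] at h4
    exact lt_irrefl _ h4
  have hmp2 : MeasurePreserving (Prod.map f f) (μ.prod μ) (μ.prod μ) := hmp.prod hmp
  let ψ : Z × Z → ℝ := fun p => Real.arctan (dist p.1 p.2)
  have hψc : Continuous ψ := Real.continuous_arctan.comp (continuous_fst.dist continuous_snd)
  have hψc' : Continuous (ψ ∘ Prod.map f f) := hψc.comp (hfc.prodMap hfc)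
  have hint : ∀ g : Z × Z → ℝ, Continuous g → (∀ p, |g p| ≤ Real.pi / 2) →
      Integrable g (μ.prod μ) := by
    intro g hg hb
    refine Integrable.of_bound hg.aestronglyMeasurable (Real.pi / 2) (Eventually.of_forall ?_)
    exact hb
  have hb : ∀ t : ℝ, |Real.arctan t| ≤ Real.pi / 2 := fun t =>
    abs_le.2 ⟨(Real.neg_pi_div_two_lt_arctan t).le, (Real.arctan_lt_pi_div_two t).le⟩
  have heq : ∫ p, (ψ ∘ Prod.map f f) p ∂(μ.prod μ) = ∫ p, ψ p ∂(μ.prod μ) := by
    have h1 := hmp2.map_eq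
    conv_rhs => rw [← h1]
    rw [integral_map hmp2.measurable.aemeasurable hψc.aestronglyMeasurable]
    rfl
  have hae : (ψ ∘ Prod.map f f) =ᵐ[μ.prod μ] ψ := by
    refine (integral_eq_iff_of_ae_le (hint _ hψc' fun p => hb _) (hint _ hψc fun p => hb _)
      (Eventually.of_forall fun p => ?_)).1 heq
    exact Real.arctan_strictMono.monotone (hf p.1 p.2)
  have hall := (Continuous.ae_eq_iff_eq (μ.prod μ) hψc' hψc).1 hae
  intro x y
  exact Real.arctan_injective (congrFun hall (x, y))

end Measure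

/-- Every `k`-crowded separable metric space `Y` contains a subspace that is plastic, dense in
`Y`, sigma-compact and `k`-crowded. -/
theorem result {Y : Type*} [MetricSpace Y] [TopologicalSpace.SeparableSpace Y]
    (hY : KCrowded Y) : ∃ X : Set Y, Plastic X ∧ Dense X ∧ IsSigmaCompact X ∧ KCrowded X := by
  classical
  have : SecondCountableTopology Y := UniformSpace.secondCountable_of_separable Y
  rcases isEmpty_or_nonempty Y with hemp | hne
  · refine ⟨∅, fun f _ _ x => absurd x.2 (notMem_empty _), ?_, ⟨fun _ => ∅, fun _ =>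
      isCompact_empty, by simp⟩, fun U _ hU => absurd hU.some.2 (notMem_empty _)⟩
    intro x
    exact hemp.elim x
  -- a sequence of non-empty basic open sets
  let 𝒮 := TopologicalSpace.countableBasis Y
  have hbasis := TopologicalSpace.isBasis_countableBasis Y
  obtain ⟨y₀⟩ := hne
  obtain ⟨B₀, hB₀, _, _⟩ := hbasis.exists_subset_of_mem_open (mem_univ y₀) isOpen_univ
  have : Nonempty 𝒮 := ⟨⟨B₀, hB₀⟩⟩
  have : Countable 𝒮 := (TopologicalSpace.countable_countableBasis Y).to_subtype
  obtain ⟨e, he⟩ := exists_surjective_nat 𝒮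
  have h1 : ∀ n, ∃ K : Set Y, Perfect K ∧ K.Nonempty ∧ IsCompact K ∧ K ⊆ (e n).1 := by
    intro n
    obtain ⟨C, hCU, hC, hCc⟩ := hY (e n).1 (TopologicalSpace.isOpen_of_mem_countableBasis (e n).2)
      (TopologicalSpace.nonempty_of_mem_countableBasis (e n).2)
    obtain ⟨D, hD, hDne, hDC⟩ := exists_perfect_nonempty_of_isClosed_of_not_countable
      hC.isClosed hCc
    exact ⟨D, hD, hDne, hC.of_isClosed_subset hD.closed hDC, hDC.trans hCU⟩
  choose K hK hKne hKc hKe using h1
  obtain ⟨δ, φ, hpos, hlim, hφK, hclose, hfar⟩ := Q175.Gauge.exists_scheme hK hKc hKne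
  let X : Set Y := ⋃ n, range (φ n)
  let ψ : ℕ → (ℕ → Bool) → X := fun n x => ⟨φ n x, mem_iUnion.2 ⟨n, x, rfl⟩⟩
  have hψ : ∀ n, Scheme δ n (ψ n) := fun n => ⟨fun k x y h => hclose k n x y h,
    fun k x y h => hfar k n x y h⟩
  have hφ : ∀ n, Scheme δ n (φ n) := fun n => ⟨fun k x y h => hclose k n x y h,
    fun k x y h => hfar k n x y h⟩
  have hcont : ∀ n, Continuous (φ n) := fun n => (hφ n).continuous hpos hlim
  have hcont' : ∀ n, Continuous (ψ n) := fun n => (hψ n).continuous hpos hlim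
  have hinj : ∀ n, Function.Injective (ψ n) := by
    intro n x y hxy
    by_contra hne
    obtain ⟨i, hi⟩ := Function.ne_iff.1 hne
    have h2 := (hψ n).far (i + n + 1) x y ⟨i, by omega, hi⟩
    rw [hxy, dist_self] at h2
    exact absurd h2 (not_le.2 (hpos _))
  -- every non-empty open subset of `X` contains the range of some `ψ n`
  have hopen : ∀ U : Set X, IsOpen U → U.Nonempty → ∃ n, range (ψ n) ⊆ U := by
    rintro U hU ⟨x, hx⟩
    obtain ⟨V, hV, rfl⟩ := isOpen_induced_iff.1 hU
    obtain ⟨B, hB, hxB, hBV⟩ := hbasis.exists_subset_of_mem_open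
      (show x.1 ∈ V from hx) hV
    obtain ⟨n, hn⟩ := he ⟨B, hB⟩
    refine ⟨n, ?_⟩
    rintro _ ⟨z, rfl⟩
    have h3 : φ n z ∈ (e n).1 := hKe n (hφK n z)
    rw [hn] at h3
    exact hBV h3
  refine ⟨X, ?_, ?_, ⟨fun n => range (φ n), fun n => isCompact_range (hcont n), rfl⟩, ?_⟩
  · let _ : MeasurableSpace X := borel X
    have : BorelSpace X := ⟨rfl⟩
    refine plastic_of_measure (gauge_mono δ) ?_ ?_
    · have h2 : (univ : Set X) ⊆ ⋃ n, range (ψ n) := by
        rintro ⟨x, hx⟩ _
        obtain ⟨n, z, rfl⟩ := mem_iUnion.1 hx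
        exact mem_iUnion.2 ⟨n, z, rfl⟩
      calc Measure.mkMetric (gauge δ) (univ : Set X)
          ≤ Measure.mkMetric (gauge δ) (⋃ n, range (ψ n)) := measure_mono h2
        _ ≤ ∑' n, Measure.mkMetric (gauge δ) (range (ψ n)) := measure_iUnion_le _
        _ ≤ ∑' n : ℕ, (2 : ℝ≥0∞)⁻¹ ^ n := ENNReal.tsum_le_tsum fun n => (hψ n).le hpos hlim
        _ = 2 := by rw [ENNReal.tsum_geometric, ENNReal.one_sub_inv_two, inv_inv]
        _ < ∞ := ENNReal.ofNat_lt_top
    · intro U hU hne
      obtain ⟨n, hn⟩ := hopen U hU hne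
      exact ((hψ n).pos hpos hlim).trans_le (measure_mono hn)
  · rw [dense_iff_inter_open]
    rintro U hU ⟨x, hx⟩
    obtain ⟨B, hB, hxB, hBV⟩ := hbasis.exists_subset_of_mem_open hx hU
    obtain ⟨n, hn⟩ := he ⟨B, hB⟩
    refine ⟨φ n fun _ => false, hBV ?_, mem_iUnion.2 ⟨n, _, rfl⟩⟩
    have h3 : φ n (fun _ => false) ∈ (e n).1 := hKe n (hφK n _)
    rw [hn] at h3
    exact h3
  · intro U hU hne
    obtain ⟨n, hn⟩ := hopen U hU hne
    refine ⟨range (ψ n), hn, isCompact_range (hcont' n), fun hcount => ?_⟩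
    have h2 : Countable (ℕ → Bool) := by
      have := hcount.to_subtype
      exact (Set.rangeFactorization_injective.2 (hinj n)).countable
    rw [← Cardinal.mk_le_aleph0_iff] at h2
    simp at h2
    exact absurd Cardinal.aleph0_lt_continuum (not_lt.2 h2)

end Pool.Agent.Results.MP_4aa5c9_gt.PlasticSubspace
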